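import Mathlib

/-! A vertex transitive graph that is sub scale invariant (MP_6f70ff_gt): the two-way infinite path.
For every `k ≥ 1` and every `k`-net, the optimal rough isometry constant `C_k` is equal to `1`. -/

set_option autoImplicit false

open Filter Topology Set

namespace Pool.Agent.Results.MP_6f70ff_gt.TwoWayPath

universe u v

/-- every vertex can be moved to every other one by an automorphism -/
def VertexTransitive {V : Type u} (G : SimpleGraph V) : Prop :=
  ∀ x y : V, ∃ φ : G ≃g G, φ x = y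

/-- `N` is a `k`-net of `G`: a set of vertices, maximal under inclusion, with pairwise distances at
least `k` -/
def IsNet {V : Type u} (G : SimpleGraph V) (k : ℕ) (N : Set V) : Prop :=
  Maximal (fun S : Set V => ∀ x ∈ S, ∀ y ∈ S, x ≠ y → k ≤ G.dist x y) N

/-- the `k`-net graph: the vertices are the elements of `N`, and two different ones are adjacent
if their distance in `G` is at most `2k` -/
def netGraph {V : Type u} (G : SimpleGraph V) (k : ℕ) (N : Set V) : SimpleGraph N where
  Adj x y := x ≠ y ∧ G.dist (x : V) (y : V) ≤ 2 * k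
  symm := ⟨fun x y h => ⟨h.1.symm, by rw [SimpleGraph.dist_comm]; exact h.2⟩⟩
  loopless := ⟨fun _ h => h.1 rfl⟩

/-- `f` is a `C`-rough isometry between the vertex sets of two graphs with their graph distances -/
structure IsRoughIsometry {V : Type u} {W : Type v} (C : ℝ) (G : SimpleGraph V)
    (H : SimpleGraph W) (f : V → W) : Prop where
  lower : ∀ x y, C⁻¹ * (H.dist (f x) (f y) : ℝ) - C ≤ (G.dist x y : ℝ)
  upper : ∀ x y, (G.dist x y : ℝ) ≤ C * (H.dist (f x) (f y) : ℝ) + C
  coarse : ∀ y, ∃ x, (H.dist (f x) y : ℝ) < C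

/-- the infimum of all `C > 0` such that there is a `C`-rough isometry from `G` to `H` (which is
`⊤` if there is none) -/
noncomputable def roughConst {V : Type u} {W : Type v} (G : SimpleGraph V) (H : SimpleGraph W) :
    ENNReal :=
  ⨅ C ∈ {C : ℝ | 0 < C ∧ ∃ f : V → W, IsRoughIsometry C G H f}, ENNReal.ofReal C

/-- `C_k` tends to `1`, for every choice of a `k`-net for each `k ≥ 1` -/
def SubScaleInvariant {V : Type u} (G : SimpleGraph V) : Prop :=
  ∀ N : ℕ → Set V, (∀ k, 1 ≤ k → IsNet G k (N k)) →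
    Tendsto (fun k => roughConst G (netGraph G k (N k))) atTop (𝓝 1)

/-- the two-way infinite path -/
def pathZ : SimpleGraph ℤ where
  Adj x y := |x - y| = 1
  symm := ⟨fun x y h => by rw [abs_sub_comm]; exact h⟩
  loopless := ⟨fun x h => by simp at h⟩

theorem exists_walk (x : ℤ) (n : ℕ) : ∃ w : pathZ.Walk x (x + n), w.length = n := by
  induction n generalizing x with
  | zero => exact ⟨(SimpleGraph.Walk.nil).copy rfl (by simp), by simp⟩
  | succ n ih =>
    obtain ⟨w, hw⟩ := ih (x + 1)
    have h : pathZ.Adj x (x + 1) := by show |x - (x + 1)| = 1; simp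
    refine ⟨(SimpleGraph.Walk.cons h w).copy rfl (by push_cast; ring), ?_⟩
    simp [hw]

theorem exists_walk' (x y : ℤ) : ∃ w : pathZ.Walk x y, w.length = (x - y).natAbs := by
  rcases le_total x y with h | h
  · obtain ⟨w, hw⟩ := exists_walk x (y - x).toNat
    have e : x + ((y - x).toNat : ℤ) = y := by
      rw [Int.toNat_of_nonneg (by linarith)]; ring
    refine ⟨w.copy rfl e, ?_⟩
    rw [SimpleGraph.Walk.length_copy, hw]
    omega
  · obtain ⟨w, hw⟩ := exists_walk y (x - y).toNat
    have e : y + ((x - y).toNat : ℤ) = x := by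
      rw [Int.toNat_of_nonneg (by linarith)]; ring
    refine ⟨(w.copy rfl e).reverse, ?_⟩
    rw [SimpleGraph.Walk.length_reverse, SimpleGraph.Walk.length_copy, hw]
    omega

theorem walk_length {x y : ℤ} (w : pathZ.Walk x y) : (x - y).natAbs ≤ w.length := by
  induction w with
  | nil => simp
  | @cons a b c h p ih =>
    have h' : |a - b| = 1 := h
    rw [SimpleGraph.Walk.length_cons]
    rcases abs_eq (by norm_num : (0 : ℤ) ≤ 1) |>.1 h' with h1 | h1 <;> omega

theorem pathZ_connected : pathZ.Connected := by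
  have : Nonempty ℤ := ⟨0⟩
  refine SimpleGraph.Connected.mk ?_
  intro x y
  exact (exists_walk' x y).choose.reachable

theorem dist_pathZ (x y : ℤ) : pathZ.dist x y = (x - y).natAbs := by
  apply le_antisymm
  · obtain ⟨w, hw⟩ := exists_walk' x y
    rw [← hw]
    exact SimpleGraph.dist_le w
  · obtain ⟨w, hw⟩ := (pathZ_connected x y).exists_walk_length_eq_dist
    rw [← hw]
    exact walk_length w

theorem pathZ_transitive : VertexTransitive pathZ := by
  intro x y
  refine ⟨⟨Equiv.addRight (y - x), ?_⟩, ?_⟩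
  · intro a b
    show |a + (y - x) - (b + (y - x))| = 1 ↔ |a - b| = 1
    rw [show a + (y - x) - (b + (y - x)) = a - b by ring]
  · show x + (y - x) = y
    ring

section Net

variable {k : ℕ} {N : Set ℤ}

theorem net_near (hk : 1 ≤ k) (hN : IsNet pathZ k N) (z : ℤ) :
    ∃ n ∈ N, (z - n).natAbs < k := by
  by_contra hcon
  push Not at hcon
  have hz : z ∈ N := by
    have h : (fun S : Set ℤ => ∀ x ∈ S, ∀ y ∈ S, x ≠ y → k ≤ pathZ.dist x y) (insert z N) := by
      intro x hx y hy hxy
      rw [dist_pathZ]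
      rcases hx with rfl | hx <;> rcases hy with rfl | hy
      · exact absurd rfl hxy
      · exact hcon y hy
      · have := hcon x hx
        omega
      · have := hN.prop x hx y hy hxy
        rwa [dist_pathZ] at this
    exact hN.le_of_ge h (subset_insert z N) (mem_insert z N)
  have := hcon z hz
  simp at this
  omega

/-- the greedy step to the right -/
theorem exists_step (hk : 1 ≤ k) (hN : IsNet pathZ k N) (p : ℤ) :
    ∃ q, q ∈ N ∧ p < q ∧ q ≤ p + 2 * k ∧ ∀ r ∈ N, r ≤ p + 2 * k → r ≤ q := by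
  obtain ⟨n, hn, hnk⟩ := net_near hk hN (p + k)
  have hn1 : p < n := by omega
  have hn2 : n ≤ p + 2 * k := by omega
  obtain ⟨q, ⟨hq1, hq2⟩, hq3⟩ := Int.exists_greatest_of_bdd
    (P := fun r => r ∈ N ∧ r ≤ p + 2 * k) ⟨p + 2 * k, fun r hr => hr.2⟩ ⟨n, hn, hn2⟩
  exact ⟨q, hq1, lt_of_lt_of_le hn1 (hq3 n ⟨hn, hn2⟩), hq2, fun r hr h => hq3 r ⟨hr, h⟩⟩

variable (hk : 1 ≤ k) (hN : IsNet pathZ k N)

/-- the greedy step to the right, as a function -/
noncomputable def step (p : ℤ) : ℤ := (exists_step hk hN p).choose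

theorem step_mem (p : ℤ) : step hk hN p ∈ N := (exists_step hk hN p).choose_spec.1
theorem lt_step (p : ℤ) : p < step hk hN p := (exists_step hk hN p).choose_spec.2.1
theorem step_le (p : ℤ) : step hk hN p ≤ p + 2 * k := (exists_step hk hN p).choose_spec.2.2.1
theorem le_step (p : ℤ) {r : ℤ} (hr : r ∈ N) (h : r ≤ p + 2 * k) : r ≤ step hk hN p :=
  (exists_step hk hN p).choose_spec.2.2.2 r hr h

theorem step_mono : Monotone (step hk hN) := by
  intro p q hpq
  apply le_step hk hN q (step_mem hk hN p)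
  have := step_le hk hN p
  linarith

theorem iter_strict (p : ℤ) : StrictMono fun m : ℕ => (step hk hN)^[m] p := by
  apply strictMono_nat_of_lt_succ
  intro m
  show (step hk hN)^[m] p < (step hk hN)^[m + 1] p
  rw [Function.iterate_succ_apply']
  exact lt_step hk hN _

theorem iter_le (p : ℤ) (m : ℕ) : (step hk hN)^[m] p ≤ p + 2 * k * m := by
  induction m with
  | zero => simp
  | succ m ih =>
    rw [Function.iterate_succ_apply']
    have := step_le hk hN ((step hk hN)^[m] p)
    push_cast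
    linarith

theorem iter_ge (p : ℤ) (m : ℕ) : p + m ≤ (step hk hN)^[m] p := by
  induction m with
  | zero => simp
  | succ m ih =>
    rw [Function.iterate_succ_apply']
    have := lt_step hk hN ((step hk hN)^[m] p)
    push_cast
    linarith

/-- points with arbitrarily long pasts -/
def Past : Set ℤ := {w | ∀ m : ℕ, ∃ p, (step hk hN)^[m] p = w}

/-- the pigeonhole principle used twice -/
theorem pigeon (a b : ℤ) (w : ℕ → ℤ) (hw : ∀ m, a ≤ w m ∧ w m ≤ b)
    (hp : ∀ m, ∃ p, (step hk hN)^[m] p = w m) : ∃ m, w m ∈ Past hk hN := by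
  classical
  have hmaps : ∀ m : ℕ, w m ∈ Set.Icc a b := fun m => ⟨(hw m).1, (hw m).2⟩
  obtain ⟨y, hy⟩ := Finite.exists_infinite_fiber
    (fun m : ℕ => (⟨w m, hmaps m⟩ : Set.Icc a b))
  have hy' : (((fun m : ℕ => (⟨w m, hmaps m⟩ : Set.Icc a b)) ⁻¹' {y}) : Set ℕ).Infinite :=
    Set.infinite_coe_iff.1 hy
  obtain ⟨m0, hm0⟩ := hy'.nonempty
  refine ⟨m0, fun m => ?_⟩
  obtain ⟨m', hm', hmm'⟩ := hy'.exists_gt m
  obtain ⟨p, hp'⟩ := hp m'
  have e0 : w m0 = y := congrArg Subtype.val (show (⟨w m0, hmaps m0⟩ : Set.Icc a b) = y from hm0)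
  have e1 : w m' = y := congrArg Subtype.val (show (⟨w m', hmaps m'⟩ : Set.Icc a b) = y from hm')
  refine ⟨(step hk hN)^[m' - m] p, ?_⟩
  rw [← Function.iterate_add_apply, show m + (m' - m) = m' by omega, hp', e1, ← e0]

theorem past_nonempty : ∃ w, w ∈ Past hk hN := by
  have key : ∀ m : ℕ, ∃ w, 0 ≤ w ∧ w ≤ 2 * (k : ℤ) ∧ ∃ p, (step hk hN)^[m] p = w := by
    intro m
    set a : ℤ := -(2 * k * m) - 1 with ha
    have hex : ∃ j : ℕ, 0 ≤ (step hk hN)^[j] a := by
      refine ⟨(-a).toNat, ?_⟩
      have := iter_ge hk hN a (-a).toNat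
      omega
    classical
    set j := Nat.find hex with hj
    have hj1 : 0 ≤ (step hk hN)^[j] a := Nat.find_spec hex
    have hj0 : j ≠ 0 := by
      intro h0
      rw [h0] at hj1
      simp only [Function.iterate_zero, id_eq] at hj1
      have : (0 : ℤ) ≤ 2 * k * m := by positivity
      omega
    obtain ⟨i, hi⟩ := Nat.exists_eq_succ_of_ne_zero hj0
    have hj2 : (step hk hN)^[i] a < 0 := by
      have := Nat.find_min hex (m := i) (by omega)
      push Not at this
      exact this
    have hj3 : (step hk hN)^[j] a ≤ 2 * k := by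
      rw [hi, Function.iterate_succ_apply']
      have := step_le hk hN ((step hk hN)^[i] a)
      linarith
    have hmj : m ≤ j := by
      by_contra hlt
      push Not at hlt
      have h1 := iter_le hk hN a j
      have h2 : (2 * (k : ℤ)) * j ≤ 2 * k * m := by
        apply mul_le_mul_of_nonneg_left _ (by positivity)
        exact_mod_cast hlt.le
      omega
    refine ⟨_, hj1, hj3, (step hk hN)^[j - m] a, ?_⟩
    rw [← Function.iterate_add_apply, show m + (j - m) = j by omega]
  choose w hw using key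
  obtain ⟨m, hm⟩ := pigeon hk hN 0 (2 * k) w (fun m => ⟨(hw m).1, (hw m).2.1⟩)
    (fun m => (hw m).2.2)
  exact ⟨_, hm⟩

theorem past_pred {w : ℤ} (hw : w ∈ Past hk hN) : ∃ w' ∈ Past hk hN, step hk hN w' = w := by
  have key : ∀ m : ℕ, ∃ w', w - 2 * k ≤ w' ∧ w' ≤ w ∧ step hk hN w' = w ∧
      ∃ p, (step hk hN)^[m] p = w' := by
    intro m
    obtain ⟨p, hp⟩ := hw (m + 1)
    rw [Function.iterate_succ_apply'] at hp
    refine ⟨(step hk hN)^[m] p, ?_, ?_, hp, p, rfl⟩
    · have := step_le hk hN ((step hk hN)^[m] p)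
      rw [hp] at this
      linarith
    · have := lt_step hk hN ((step hk hN)^[m] p)
      rw [hp] at this
      exact this.le
  choose w' hw' using key
  obtain ⟨m, hm⟩ := pigeon hk hN (w - 2 * k) w w' (fun m => ⟨(hw' m).1, (hw' m).2.1⟩)
    (fun m => (hw' m).2.2.2)
  exact ⟨_, hm, (hw' m).2.2.1⟩

/-- a two-way infinite greedy orbit -/
theorem exists_orbit : ∃ n : ℤ → ℤ, ∀ i, step hk hN (n i) = n (i + 1) := by
  obtain ⟨w0, h0⟩ := past_nonempty hk hN
  choose! g hg using fun w (hw : w ∈ Past hk hN) => past_pred hk hN hw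
  have hgi : ∀ m : ℕ, g^[m] w0 ∈ Past hk hN := by
    intro m
    induction m with
    | zero => exact h0
    | succ m ih => rw [Function.iterate_succ_apply']; exact (hg _ ih).1
  refine ⟨fun i => if 0 ≤ i then (step hk hN)^[i.toNat] w0 else g^[(-i).toNat] w0, ?_⟩
  intro i
  beta_reduce
  rcases lt_trichotomy i (-1) with h | h | h
  · rw [if_neg (by omega), if_neg (by omega)]
    have : (-i).toNat = (-(i + 1)).toNat + 1 := by omega
    rw [this, Function.iterate_succ_apply']
    exact (hg _ (hgi _)).2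
  · subst h
    rw [if_neg (by omega), if_pos (by omega)]
    show step hk hN (g^[1] w0) = (step hk hN)^[0] w0
    exact (hg _ h0).2
  · rw [if_pos (by omega), if_pos (by omega)]
    have : (i + 1).toNat = i.toNat + 1 := by omega
    rw [this, Function.iterate_succ_apply']

theorem orbit_iter {n : ℤ → ℤ} (hn : ∀ i, step hk hN (n i) = n (i + 1)) (i : ℤ) (m : ℕ) :
    (step hk hN)^[m] (n i) = n (i + m) := by
  induction m with
  | zero => simp
  | succ m ih =>
    rw [Function.iterate_succ_apply', ih, hn]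
    congr 1
    push_cast
    ring

theorem orbit_mem {n : ℤ → ℤ} (hn : ∀ i, step hk hN (n i) = n (i + 1)) (i : ℤ) : n i ∈ N := by
  have := hn (i - 1)
  rw [sub_add_cancel] at this
  rw [← this]
  exact step_mem hk hN _

/-- adjacency in the net graph -/
theorem adj_net {p q : N} : (netGraph pathZ k N).Adj p q ↔
    p ≠ q ∧ ((p : ℤ) - q).natAbs ≤ 2 * k := by
  show p ≠ q ∧ pathZ.dist (p : ℤ) q ≤ 2 * k ↔ _
  rw [dist_pathZ]

theorem walk_reach {p q : N} (w : (netGraph pathZ k N).Walk p q) :
    (q : ℤ) ≤ (step hk hN)^[w.length] p := by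
  induction w with
  | nil => simp
  | @cons a b c h t ih =>
    rw [SimpleGraph.Walk.length_cons, Function.iterate_succ_apply]
    refine ih.trans ((step_mono hk hN).iterate _ ?_)
    have h1 := (adj_net.1 h).2
    exact le_step hk hN a b.2 (by omega)

theorem walk_orbit {n : ℤ → ℤ} (hn : ∀ i, step hk hN (n i) = n (i + 1)) (i : ℤ) (m : ℕ) :
    ∃ w : (netGraph pathZ k N).Walk ⟨n i, orbit_mem hk hN hn i⟩
      ⟨n (i + m), orbit_mem hk hN hn (i + m)⟩, w.length = m := by
  induction m generalizing i with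
  | zero => exact ⟨(SimpleGraph.Walk.nil).copy rfl (by simp), by simp⟩
  | succ m ih =>
    obtain ⟨w, hw⟩ := ih (i + 1)
    have h : (netGraph pathZ k N).Adj ⟨n i, orbit_mem hk hN hn i⟩
        ⟨n (i + 1), orbit_mem hk hN hn (i + 1)⟩ := by
      rw [adj_net]
      have h1 := lt_step hk hN (n i)
      have h2 := step_le hk hN (n i)
      rw [hn] at h1 h2
      constructor
      · intro he
        have : n i = n (i + 1) := congrArg Subtype.val he
        omega
      · show (n i - n (i + 1)).natAbs ≤ 2 * k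
        omega
    refine ⟨(SimpleGraph.Walk.cons h w).copy rfl (Subtype.ext ?_), by simp [hw]⟩
    show n (i + 1 + m) = n (i + (m + 1 : ℕ))
    congr 1
    push_cast
    ring

theorem dist_orbit_aux {n : ℤ → ℤ} (hn : ∀ i, step hk hN (n i) = n (i + 1)) (i : ℤ) (m : ℕ) :
    (netGraph pathZ k N).dist ⟨n i, orbit_mem hk hN hn i⟩
      ⟨n (i + m), orbit_mem hk hN hn (i + m)⟩ = m := by
  obtain ⟨w, hw⟩ := walk_orbit hk hN hn i m
  apply le_antisymm
  · exact (SimpleGraph.dist_le w).trans hw.le
  · obtain ⟨w', hw'⟩ := w.reachable.exists_walk_length_eq_dist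
    rw [← hw']
    have h := walk_reach hk hN w'
    have h2 : n (i + m) ≤ (step hk hN)^[w'.length] (n i) := h
    have h3 : (step hk hN)^[m] (n i) ≤ (step hk hN)^[w'.length] (n i) := by
      rw [orbit_iter hk hN hn i m]; exact h2
    exact (iter_strict hk hN (n i)).le_iff_le.1 h3

theorem dist_orbit {n : ℤ → ℤ} (hn : ∀ i, step hk hN (n i) = n (i + 1)) (i j : ℤ) :
    (netGraph pathZ k N).dist ⟨n i, orbit_mem hk hN hn i⟩
      ⟨n j, orbit_mem hk hN hn j⟩ = (i - j).natAbs := by
  have main : ∀ i j : ℤ, i ≤ j → (netGraph pathZ k N).dist ⟨n i, orbit_mem hk hN hn i⟩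
      ⟨n j, orbit_mem hk hN hn j⟩ = (i - j).natAbs := by
    intro i j hij
    have h := dist_orbit_aux hk hN hn i (j - i).toNat
    have e : i + ((j - i).toNat : ℤ) = j := by
      rw [Int.toNat_of_nonneg (by linarith)]; ring
    simp only [e] at h
    rw [h]
    omega
  rcases le_total i j with h | h
  · exact main i j h
  · rw [SimpleGraph.dist_comm, main j i h]
    omega

theorem orbit_grow {n : ℤ → ℤ} (hn : ∀ i, step hk hN (n i) = n (i + 1)) {i j : ℤ} (hij : i ≤ j) :
    n i + (j - i) ≤ n j := by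
  have h := iter_ge hk hN (n i) (j - i).toNat
  rw [orbit_iter hk hN hn, Int.toNat_of_nonneg (by linarith)] at h
  rwa [show i + (j - i) = j by ring] at h

/-- every point of the net is a neighbour of, or on, the orbit -/
theorem near_orbit {n : ℤ → ℤ} (hn : ∀ i, step hk hN (n i) = n (i + 1)) (p : N) :
    ∃ i, (⟨n i, orbit_mem hk hN hn i⟩ : N) = p ∨
      (netGraph pathZ k N).Adj ⟨n i, orbit_mem hk hN hn i⟩ p := by
  obtain ⟨i, hi1, hi2⟩ := Int.exists_greatest_of_bdd (P := fun i => n i ≤ p)
    ⟨max 0 ((p : ℤ) - n 0), fun i hi => by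
      by_contra hlt
      push Not at hlt
      have h0 : 0 ≤ i := le_trans (le_max_left _ _) hlt.le
      have h1 := orbit_grow hk hN hn h0
      have h2 : (p : ℤ) - n 0 < i := lt_of_le_of_lt (le_max_right _ _) hlt
      linarith⟩
    ⟨-(n 0 - p).toNat, by
      have h := orbit_grow hk hN hn (i := -((n 0 - p).toNat : ℤ)) (j := 0) (by omega)
      omega⟩
  have h3 : (p : ℤ) < n (i + 1) := by
    by_contra hle
    push Not at hle
    have := hi2 (i + 1) hle
    omega
  have h4 := step_le hk hN (n i)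
  rw [hn] at h4
  refine ⟨i, ?_⟩
  by_cases he : n i = p
  · exact Or.inl (Subtype.ext he)
  · right
    rw [adj_net]
    refine ⟨fun h => he (congrArg Subtype.val h), ?_⟩
    show (n i - (p : ℤ)).natAbs ≤ 2 * k
    omega

include hk hN in
theorem net_connected : (netGraph pathZ k N).Connected := by
  obtain ⟨n, hn⟩ := exists_orbit hk hN
  have : Nonempty N := ⟨⟨n 0, orbit_mem hk hN hn 0⟩⟩
  have h0 : ∀ i, (netGraph pathZ k N).Reachable ⟨n i, orbit_mem hk hN hn i⟩
      ⟨n 0, orbit_mem hk hN hn 0⟩ := by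
    intro i
    rcases le_total i 0 with h | h
    · obtain ⟨w, -⟩ := walk_orbit hk hN hn i (-i).toNat
      have e : i + ((-i).toNat : ℤ) = 0 := by omega
      simp only [e] at w
      exact w.reachable
    · obtain ⟨w, -⟩ := walk_orbit hk hN hn 0 i.toNat
      have e : 0 + (i.toNat : ℤ) = i := by omega
      simp only [e] at w
      exact w.reachable.symm
  have h1 : ∀ p, (netGraph pathZ k N).Reachable p ⟨n 0, orbit_mem hk hN hn 0⟩ := by
    intro p
    obtain ⟨i, hi | hi⟩ := near_orbit hk hN hn p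
    · rw [← hi]; exact h0 i
    · exact hi.symm.reachable.trans (h0 i)
  exact SimpleGraph.Connected.mk fun p q => (h1 p).trans (h1 q).symm

include hk hN in
theorem rough_of_one_lt {C : ℝ} (hC : 1 < C) :
    ∃ f : ℤ → N, IsRoughIsometry C pathZ (netGraph pathZ k N) f := by
  obtain ⟨n, hn⟩ := exists_orbit hk hN
  have hC0 : 0 < C := by linarith
  refine ⟨fun i => ⟨n i, orbit_mem hk hN hn i⟩, ?_, ?_, ?_⟩
  · intro x y
    rw [dist_orbit hk hN hn, dist_pathZ]
    have h1 : C⁻¹ ≤ 1 := inv_le_one_of_one_le₀ hC.le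
    have h2 : (0 : ℝ) ≤ ((x - y).natAbs : ℝ) := by positivity
    nlinarith
  · intro x y
    rw [dist_orbit hk hN hn, dist_pathZ]
    have h2 : (0 : ℝ) ≤ ((x - y).natAbs : ℝ) := by positivity
    nlinarith
  · intro p
    obtain ⟨i, hi | hi⟩ := near_orbit hk hN hn p
    · refine ⟨i, ?_⟩
      rw [hi, SimpleGraph.dist_self]
      simpa using hC0
    · refine ⟨i, ?_⟩
      rw [SimpleGraph.dist_eq_one_iff_adj.2 hi]
      simpa using hC

end Net

theorem one_le_of_rough {W : Type v} {H : SimpleGraph W} {C : ℝ} (hC : 0 < C) {f : ℤ → W}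
    (hf : IsRoughIsometry C pathZ H f) : 1 ≤ C := by
  by_contra hlt
  push Not at hlt
  have hCi : C < C⁻¹ := by
    have : 1 < C⁻¹ := (one_lt_inv₀ hC).2 hlt
    linarith
  set K : ℝ := 2 * C / (C⁻¹ - C) with hK
  have hbd : ∀ m : ℕ, (m : ℝ) ≤ C * K + C := by
    intro m
    have h1 := hf.lower 0 m
    have h2 := hf.upper 0 m
    have hd : pathZ.dist 0 (m : ℤ) = m := by rw [dist_pathZ]; simp
    rw [hd] at h1 h2
    set D : ℝ := (H.dist (f 0) (f m) : ℝ)
    have h3 : D * (C⁻¹ - C) ≤ 2 * C := by nlinarith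
    have h4 : D ≤ K := by
      rw [hK, le_div_iff₀ (by linarith)]
      exact h3
    nlinarith
  obtain ⟨m, hm⟩ := exists_nat_gt (C * K + C)
  linarith [hbd m]

theorem roughConst_eq {k : ℕ} (hk : 1 ≤ k) {N : Set ℤ} (hN : IsNet pathZ k N) :
    roughConst pathZ (netGraph pathZ k N) = 1 := by
  unfold roughConst
  apply le_antisymm
  · refine ENNReal.le_of_forall_pos_le_add ?_
    intro ε hε _
    have hC : (1 : ℝ) < 1 + ε := by
      have : (0 : ℝ) < ε := hε
      linarith
    have hmem : (1 + ε : ℝ) ∈ {C : ℝ | 0 < C ∧ ∃ f : ℤ → N,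
        IsRoughIsometry C pathZ (netGraph pathZ k N) f} :=
      ⟨by linarith, rough_of_one_lt hk hN hC⟩
    refine (iInf₂_le _ hmem).trans ?_
    rw [ENNReal.ofReal_add (by norm_num) (by positivity), ENNReal.ofReal_one,
      ENNReal.ofReal_coe_nnreal]
  · refine le_iInf₂ ?_
    rintro C ⟨hC, f, hf⟩
    rw [← ENNReal.ofReal_one]
    exact ENNReal.ofReal_le_ofReal (one_le_of_rough hC hf)

theorem result : ∃ G : SimpleGraph ℤ, (∀ x y, G.Adj x y ↔ |x - y| = 1) ∧ G.Connected ∧
    (∀ x, (G.neighborSet x).Finite) ∧ VertexTransitive G ∧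
    (∀ k : ℕ, 1 ≤ k → ∀ N : Set ℤ, IsNet G k N →
      (netGraph G k N).Connected ∧ roughConst G (netGraph G k N) = 1) ∧
    SubScaleInvariant G := by
  refine ⟨pathZ, fun x y => Iff.rfl, pathZ_connected, ?_, pathZ_transitive, ?_, ?_⟩
  · intro x
    refine (Set.finite_Icc (x - 1) (x + 1)).subset ?_
    intro y hy
    have h : |x - y| = 1 := hy
    have := abs_le.1 h.le
    constructor <;> linarith
  · exact fun k hk N hN => ⟨net_connected hk hN, roughConst_eq hk hN⟩
  · intro N hN
    refine tendsto_nhds_of_eventually_eq ?_ |>.trans le_rfl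
    filter_upwards [eventually_ge_atTop 1] with k hk
    exact roughConst_eq hk (hN k hk)

end Pool.Agent.Results.MP_6f70ff_gt.TwoWayPath
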